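import Mathlib
import Pool.Agent.H21.CST.Fin

/-! The generic `k`-rank: the conjectured value up to a constant depending only on `n`. -/

set_option autoImplicit false

namespace Pool.Agent.Results.MP_27fe77_ag.ConstError

open Pool.CST

/-- **Theorem.** Let `n ≥ 3` and let `cv n k d` be the least `s` with
`s * N_n(d) ≥ N_n(k * d)` (the conjectured value of the generic `k`-rank of forms of degree `k * d`
in `n` variables). For all `k ≥ 1` and `d ≥ 1` the generic `k`-rank is at least `cv n k d` and at
most `cv n k d + 4 ^ n ^ 3`. -/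
theorem result (n : ℕ) (hn : 3 ≤ n) (k d : ℕ) (hk : 1 ≤ k) (hd : 1 ≤ d) :
    ∃ r, Rk n k d r ∧ cv n k d ≤ r ∧ r ≤ cv n k d + 4 ^ n ^ 3 :=
  cst_main n k d hn hk hd

end Pool.Agent.Results.MP_27fe77_ag.ConstError
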