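import Mathlib
import Pool.Agent.H49.FOS.All

/-! An upper bound for the generic `k`-rank of forms in any number of variables. -/

set_option autoImplicit false

namespace Pool.Agent.Results.MP_27fe77_ag.CurveBound

open Pool.FOS

/-- **Theorem.** Let `n, k ≥ 2`, `d ≥ 1`. The general form of degree `k * d` in `n` variables is a
sum of `s` `k`-th powers of forms of degree `d` if `k * d < N * (d + 1)` and
`s * (d + 1)` is at least the sum of `max 0 (k * d + 1 - |a|)` over `a ∈ {0, ..., N - 1}^(n - 2)`.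
With `N = k`: `s = k ^ (n - 1) - ⌊n (k - 1) k ^ (n - 2) / (2 (d + 1))⌋` suffices if `n ≤ d + 2`, and
`s = k ^ (n - 1) - 1` suffices if `n ≥ 3` and `2 (d + 1) ≤ n (k - 1) k ^ (n - 2)`. -/
theorem result (n k d : ℕ) (hn : 2 ≤ n) (hk : 2 ≤ k) (hd : 1 ≤ d) :
    (∀ N s : ℕ, k * d < N * (d + 1) →
      ∑ a : Fin (n - 2) → Fin N, (k * d + 1 - ∑ i, (a i : ℕ)) ≤ s * (d + 1) → GenLe n k d s) ∧
    (n ≤ d + 2 → GenLe n k d (k ^ (n - 1) - n * (k - 1) * k ^ (n - 2) / (2 * (d + 1)))) ∧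
    (3 ≤ n → 2 * (d + 1) ≤ n * (k - 1) * k ^ (n - 2) → GenLe n k d (k ^ (n - 1) - 1)) :=
  fos_all n k d hn hk hd

end Pool.Agent.Results.MP_27fe77_ag.CurveBound
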