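import Mathlib
import Pool.Agent.H17.SQA.All

/-! Sums of squares of forms: the generic rank is asymptotic to the conjectured value. -/

set_option autoImplicit false

namespace Pool.Agent.Results.MP_27fe77_ag.SquaresAsymptotic

open Pool.CST Pool.SQA

/-- **Theorem.** Let `d ≥ 2` and let `cw n d` be the least `s` with
`s * N_n(d) - s (s - 1) / 2 ≥ N_n(2 d)` (the conjectured value of the generic `2`-rank of forms
of degree `2 d` in `n` variables), `mon n d = N_n(d)`. For every `ε > 0` and all large `n` the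
generic `2`-rank `r` satisfies `cw n d ≤ r ≤ (1 + ε) * cw n d` and differs from
`(1 - √(1 - 2 / C(2d, d))) * N_n(d)` by at most `ε * N_n(d)`. -/
theorem result (d : ℕ) (hd : 2 ≤ d) (ε : ℝ) (hε : 0 < ε) :
    ∃ n0 : ℕ, ∀ n ≥ n0, ∃ r : ℕ, Rk n 2 d r ∧ cw n d ≤ r ∧ (r : ℝ) ≤ (1 + ε) * cw n d ∧
      |(r : ℝ) - (1 - √(1 - 2 / (((2 * d).choose d : ℕ) : ℝ))) * mon n d| ≤ ε * mon n d :=
  all_main d ε hd hε

end Pool.Agent.Results.MP_27fe77_ag.SquaresAsymptotic
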