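import Mathlib
import Pool.Agent.H49.TRO.All

/-! The generic `k`-rank of ternary forms: the conjectured value or one more. -/

set_option autoImplicit false

namespace Pool.Agent.Results.MP_27fe77_ag.TernaryRank

open Pool.FOS Pool.TRN Pool.TRO

/-- **Theorem.** Let `k ≥ 3` and let `cv k d = ⌈(k d + 1) (k d + 2) / ((d + 1) (d + 2))⌉` be the
conjectured value of the generic `k`-rank of ternary forms of degree `k * d`.

For every `d ≥ 1` the generic `k`-rank is `cv k d` or `cv k d + 1`, and it is `cv k d` for all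
`d ≥ 1` outside a set of at most `12 k ^ (3 / 2)` values of `d`. More precisely, for `d + 2 ≥ k` it
is `cv k d` if `cv k d ≥ k ^ 2 - 2 q` for some `q < k` with `2 q d ≤ (k - 1 - q) (3 k - q)`, or if
`cv k d ≥ k ^ 2 - (2 u + 1)` for some `u ≤ k - 4` with `(2 u + 1) d ≤ (k - 3 - u) (3 k - u - 1)`; it
is smaller than `k ^ 2` for all `d ≤ (k - 3) (3 k - 1)`. -/
theorem result (k : ℕ) (hk : 3 ≤ k) :
    (∀ d, 1 ≤ d → GenRk 3 k d (cv k d) ∨ GenRk 3 k d (cv k d + 1)) ∧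
    (∃ E : Finset ℕ, E.card ^ 2 ≤ 144 * k ^ 3 ∧ ∀ d, 1 ≤ d → d ∉ E → GenRk 3 k d (cv k d)) ∧
    (∀ d q : ℕ, 1 ≤ d → k ≤ d + 2 → q < k → 2 * q * d ≤ (k - 1 - q) * (3 * k - q) →
      k ^ 2 - 2 * q ≤ cv k d → GenRk 3 k d (cv k d)) ∧
    (∀ d u : ℕ, 1 ≤ d → k ≤ d + 2 → u + 4 ≤ k → (2 * u + 1) * d ≤ (k - 3 - u) * (3 * k - u - 1) →
      k ^ 2 - (2 * u + 1) ≤ cv k d → GenRk 3 k d (cv k d)) ∧
    (∀ d, 1 ≤ d → d ≤ (k - 3) * (3 * k - 1) → GenLe 3 k d (k ^ 2 - 1)) :=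
  tro_main k hk

end Pool.Agent.Results.MP_27fe77_ag.TernaryRank
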